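import Pool.Agent.Helper60.Per.Final

/-!
# Periodic equations with nonnegative coefficients: coefficients and periods
-/

set_option autoImplicit false
open Pool.Agent

namespace Pool.Agent.Helper69.PerA

/-- the right-hand side is one of the five functions, on the positive orthant -/
theorem classify (k : ℕ) (hk : 1 ≤ k) (A B : Fin (k + 1) → ℝ) (hA : ∀ i, 0 ≤ A i) (hB : ∀ i, 0 ≤ B i)
    (hAs : 0 < ∑ i, A i) (hBs : 0 < ∑ i, B i) (hAB : A 1 ^ 2 + B 1 ^ 2 ≠ 0) (p : ℕ) (hp : 1 ≤ p)
    (hper0 : ∀ x : ℕ → ℝ, (∀ i, i < k → 0 < x i) →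
      (∀ n, x (n + k) =
        (A 0 + ∑ i : Fin k, A i.succ * x (n + (i : ℕ))) /
        (B 0 + ∑ i : Fin k, B i.succ * x (n + (i : ℕ)))) →
      ∀ n, x (n + p) = x n) :
    ∃ ℓ : ℕ, 1 ≤ ℓ ∧ ∃ a : ℝ, 0 < a ∧
      ((k = ℓ ∧ ∀ y : ℕ → ℝ, (∀ i, 0 < y i) →
          (A 0 + ∑ i : Fin k, A i.succ * y (i : ℕ)) /
          (B 0 + ∑ i : Fin k, B i.succ * y (i : ℕ)) = a * (y 0 / a)) ∨
       (k = ℓ ∧ ∀ y : ℕ → ℝ, (∀ i, 0 < y i) →
          (A 0 + ∑ i : Fin k, A i.succ * y (i : ℕ)) /
          (B 0 + ∑ i : Fin k, B i.succ * y (i : ℕ)) = a * (1 / (y 0 / a))) ∨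
       (k = 2 * ℓ ∧ ∀ y : ℕ → ℝ, (∀ i, 0 < y i) →
          (A 0 + ∑ i : Fin k, A i.succ * y (i : ℕ)) /
          (B 0 + ∑ i : Fin k, B i.succ * y (i : ℕ)) = a * ((y ℓ / a) / (y 0 / a))) ∨
       (k = 2 * ℓ ∧ ∀ y : ℕ → ℝ, (∀ i, 0 < y i) →
          (A 0 + ∑ i : Fin k, A i.succ * y (i : ℕ)) /
          (B 0 + ∑ i : Fin k, B i.succ * y (i : ℕ)) = a * ((1 + y ℓ / a) / (y 0 / a))) ∨
       (k = 3 * ℓ ∧ ∀ y : ℕ → ℝ, (∀ i, 0 < y i) →
          (A 0 + ∑ i : Fin k, A i.succ * y (i : ℕ)) /
          (B 0 + ∑ i : Fin k, B i.succ * y (i : ℕ)) =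
            a * ((1 + y ℓ / a + y (2 * ℓ) / a) / (y 0 / a)))) := by
  classical
  have hper : ∀ x : ℕ → ℝ, (∀ n, 0 < x n) →
      (∀ n, x (n + k) = Helper60.Per.lin k A (fun i => x (n + i)) /
        Helper60.Per.lin k B (fun i => x (n + i))) →
      ∀ n, x (n + p) = x n := fun x hx hrec => hper0 x (fun i _ => hx i) hrec
  have h10 : (1 : Fin (k + 1)) = (⟨0, hk⟩ : Fin k).succ := by
    apply Fin.ext
    obtain ⟨m, rfl⟩ : ∃ m, k = m + 1 := ⟨k - 1, by omega⟩
    simp
  set α : ℝ := A 0 + ∑ i ∈ (Finset.univ : Finset (Fin k)).erase ⟨0, hk⟩, A i.succ with hα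
  set β : ℝ := B 0 + ∑ i ∈ (Finset.univ : Finset (Fin k)).erase ⟨0, hk⟩, B i.succ with hβ
  have hsplitA : ∀ t : ℝ, Helper60.Per.lin k A (fun i => if i = 0 then t else 1)
      = α + A 1 * t := by
    intro t
    rw [Helper60.Per.lin_split hk]
    simp only [if_true]
    rw [hα]
    congr 2
    apply Finset.sum_congr rfl
    intro i hi
    rw [Finset.mem_erase] at hi
    rw [if_neg (fun h => hi.1 (Fin.ext h)), mul_one]
  have hsplitB : ∀ t : ℝ, Helper60.Per.lin k B (fun i => if i = 0 then t else 1)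
      = β + B 1 * t := by
    intro t
    rw [Helper60.Per.lin_split hk]
    simp only [if_true]
    rw [hβ]
    congr 2
    apply Finset.sum_congr rfl
    intro i hi
    rw [Finset.mem_erase] at hi
    rw [if_neg (fun h => hi.1 (Fin.ext h)), mul_one]
  have hα0 : 0 ≤ α := add_nonneg (hA 0) (Finset.sum_nonneg (fun i _ => hA _))
  have hβ0 : 0 ≤ β := add_nonneg (hB 0) (Finset.sum_nonneg (fun i _ => hB _))
  have hposy : ∀ t : ℝ, 0 < t → ∀ i < k, (0 : ℝ) < (fun i : ℕ => if i = 0 then t else 1) i := by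
    intro t ht i _
    show (0 : ℝ) < if i = 0 then t else 1
    split_ifs
    · exact ht
    · exact one_pos
  have hmob := Helper60.Per.moebius_onto hα0 hβ0 (hA 1) (hB 1) hAB
    (fun t ht => by rw [← hsplitA]; exact Helper60.Per.lin_pos hA hAs (hposy t ht))
    (fun t ht => by rw [← hsplitB]; exact Helper60.Per.lin_pos hB hBs (hposy t ht))
    (fun y hy => by
      obtain ⟨t, ht, h⟩ := Helper60.Per.onto_of_periodic k p hk hp A B hA hB hAs hBs hper y hy
      rw [hsplitA, hsplitB] at h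
      exact ⟨t, ht, h⟩)
  -- vanishing of the remaining coefficients
  have hvanish : ∀ C : Fin (k + 1) → ℝ, (∀ i, 0 ≤ C i) →
      C 0 + ∑ i ∈ (Finset.univ : Finset (Fin k)).erase ⟨0, hk⟩, C i.succ = 0 →
      ∀ y : ℕ → ℝ, Helper60.Per.lin k C y = C 1 * y 0 := by
    intro C hC h0 y
    have hs : 0 ≤ ∑ i ∈ (Finset.univ : Finset (Fin k)).erase ⟨0, hk⟩, C i.succ :=
      Finset.sum_nonneg (fun i _ => hC _)
    have h1 : C 0 = 0 := by have := hC 0; linarith
    have h2 : ∑ i ∈ (Finset.univ : Finset (Fin k)).erase ⟨0, hk⟩, C i.succ = 0 := by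
      have := hC 0; linarith
    rw [Finset.sum_eq_zero_iff_of_nonneg (fun i _ => hC _)] at h2
    rw [Helper60.Per.lin_split hk, h1, Finset.sum_eq_zero (fun i hi => by rw [h2 i hi, zero_mul])]
    ring
  rcases hmob with ⟨hA1, hB1, hαz⟩ | ⟨hA1, hB1, hβz⟩
  · -- Case I
    have h := Helper60.Per.caseI k p hk hp (A 1) hA1 A B hA hAs hB hBs hB1
      (hvanish A hA hαz) hper
    refine ⟨k, hk, 1, one_pos, Or.inl ⟨rfl, ?_⟩⟩
    intro y hy
    have := h y hy
    rw [div_one, one_mul]
    exact this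
  · -- Case II
    have hBform := hvanish B hB hβz
    set a0 : ℝ := A 0 / B 1 with ha0
    set aj : ℕ → ℝ := fun j => if h : j < k then A (⟨j, h⟩ : Fin k).succ / B 1 else 0 with haj
    have ha0nn : 0 ≤ a0 := div_nonneg (hA 0) hB1.le
    have hajnn : ∀ j, 0 ≤ aj j := by
      intro j
      simp only [haj]
      split_ifs
      · exact div_nonneg (hA _) hB1.le
      · exact le_rfl
    have hAform : ∀ y : ℕ → ℝ, Helper60.Per.lin k A y
        = B 1 * (a0 + ∑ j ∈ Finset.Ico 1 k, aj j * y j) := by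
      intro y
      rw [mul_add, Finset.mul_sum]
      unfold Helper60.Per.lin
      congr 1
      · rw [ha0]; field_simp
      · have e1 : ∀ i : Fin k, A i.succ * y (i : ℕ)
            = (fun j : ℕ => B 1 * (aj j * y j)) (i : ℕ) := by
          intro i
          simp only [haj]
          rw [dif_pos i.2]
          field_simp
        rw [Finset.sum_congr rfl (fun i _ => e1 i),
          Fin.sum_univ_eq_sum_range (fun j : ℕ => B 1 * (aj j * y j)) k,
          Finset.range_eq_Ico, Finset.sum_eq_sum_Ico_succ_bot hk]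
        have e2 : aj 0 = 0 := by
          simp only [haj]
          rw [dif_pos (show 0 < k from hk), ← h10, hA1, zero_div]
        rw [e2]
        simp
    have hper2 : ∀ x : ℕ → ℝ, (∀ n, 0 < x n) →
        (∀ n, x n * x (n + k) = a0 + ∑ j ∈ Finset.Ico 1 k, aj j * x (n + j)) →
        ∀ n, x (n + p) = x n := by
      intro x hx hrec
      apply hper x hx
      intro n
      rw [hAform, hBform, add_zero]
      rw [← hrec n]
      have := (hx n).ne'
      field_simp
    have hF : ∀ y : ℕ → ℝ, (∀ i, 0 < y i) →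
        (A 0 + ∑ i : Fin k, A i.succ * y (i : ℕ)) / (B 0 + ∑ i : Fin k, B i.succ * y (i : ℕ))
          = (a0 + ∑ j ∈ Finset.Ico 1 k, aj j * y j) / y 0 := by
      intro y hy
      have h1 := hAform y
      have h2 := hBform y
      unfold Helper60.Per.lin at h1 h2
      rw [h1, h2]
      have := (hy 0).ne'
      field_simp
    by_cases hJ : ∃ j ∈ Finset.Ico 1 k, aj j ≠ 0
    · rcases Helper60.Per.classify_II k p hk hp a0 aj ha0nn hajnn hJ hper2 with
        ⟨g, hg, hkg, hz, hpos, hc⟩ | ⟨g, hg, hkg, hz, hpos, h2g, hc⟩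
      · refine ⟨g, hg, aj g, hpos, ?_⟩
        have hsum : ∀ y : ℕ → ℝ, ∑ j ∈ Finset.Ico 1 k, aj j * y j = aj g * y g := by
          intro y
          apply Finset.sum_eq_single_of_mem g (by rw [Finset.mem_Ico]; omega)
          intro j hj hjg
          rw [hz j hj hjg, zero_mul]
        rcases hc with hc | hc
        · right; right; left
          refine ⟨hkg, ?_⟩
          intro y hy
          rw [hF y hy, hsum, hc]
          have := (hy 0).ne'
          have := hpos.ne'
          field_simp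
          ring
        · right; right; right; left
          refine ⟨hkg, ?_⟩
          intro y hy
          rw [hF y hy, hsum, hc]
          have := (hy 0).ne'
          have := hpos.ne'
          field_simp
      · refine ⟨g, hg, aj g, hpos, ?_⟩
        have hsum : ∀ y : ℕ → ℝ, ∑ j ∈ Finset.Ico 1 k, aj j * y j
            = aj g * y g + aj g * y (2 * g) := by
          intro y
          have hne : g ≠ 2 * g := by omega
          have hsub : ({g, 2 * g} : Finset ℕ) ⊆ Finset.Ico 1 k := by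
            intro j hj
            rw [Finset.mem_insert, Finset.mem_singleton] at hj
            rw [Finset.mem_Ico]
            omega
          rw [← Finset.sum_subset hsub, Finset.sum_pair hne, h2g]
          intro j hj hj2
          rw [Finset.mem_insert, Finset.mem_singleton, not_or] at hj2
          rw [hz j hj hj2.1 hj2.2, zero_mul]
        right; right; right; right
        refine ⟨hkg, ?_⟩
        intro y hy
        rw [hF y hy, hsum, hc]
        have := (hy 0).ne'
        have := hpos.ne'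
        field_simp
        ring
    · push Not at hJ
      have hsum : ∀ y : ℕ → ℝ, ∑ j ∈ Finset.Ico 1 k, aj j * y j = 0 := by
        intro y
        apply Finset.sum_eq_zero
        intro j hj
        rw [hJ j hj, zero_mul]
      have ha0pos : 0 < a0 := by
        have h1 := Helper60.Per.lin_pos hA hAs (y := fun _ => 1) (fun _ _ => one_pos)
        rw [hAform, hsum, add_zero] at h1
        exact (pos_iff_pos_of_mul_pos h1).mp hB1
      refine ⟨k, hk, Real.sqrt a0, Real.sqrt_pos.mpr ha0pos, ?_⟩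
      right; left
      refine ⟨rfl, ?_⟩
      intro y hy
      rw [hF y hy, hsum, add_zero]
      have h1 : Real.sqrt a0 * Real.sqrt a0 = a0 := Real.mul_self_sqrt ha0nn
      have h2 := (hy 0).ne'
      have h3 := (Real.sqrt_pos.mpr ha0pos).ne'
      field_simp
      rw [pow_two, h1]


end Pool.Agent.Helper69.PerA
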