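import Pool.Agent.Helper69.PerA

/-!
# The coefficients of a periodic equation
-/

set_option autoImplicit false

namespace Pool.Agent.Helper69.PerA

/-- an affine function which vanishes on the positive orthant has coefficients zero -/
theorem coeff_zero {k : ℕ} {C : Fin (k + 1) → ℝ}
    (h : ∀ y : ℕ → ℝ, (∀ i, 0 < y i) → C 0 + ∑ i : Fin k, C i.succ * y (i : ℕ) = 0) : ∀ i, C i = 0 := by
  have h1 := h (fun _ => 1) (fun _ => one_pos)
  have hs : ∀ j : Fin k, C j.succ = 0 := by
    intro j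
    have h2 := h (fun i => if i = (j : ℕ) then 2 else 1) (by intro i; split_ifs <;> norm_num)
    have h3 : ∑ i : Fin k, C i.succ * (if (i : ℕ) = (j : ℕ) then (2 : ℝ) else 1) =
        ∑ i : Fin k, C i.succ * 1 + C j.succ := by
      have h4 : ∀ i : Fin k, C i.succ * (if (i : ℕ) = (j : ℕ) then (2 : ℝ) else 1) =
          C i.succ * 1 + (if i = j then C i.succ else 0) := by
        intro i
        by_cases hij : i = j
        · rw [if_pos (congrArg Fin.val hij), if_pos hij]
          ring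
        · rw [if_neg (fun hh => hij (Fin.ext hh)), if_neg hij]
          ring
      rw [Finset.sum_congr rfl fun i _ => h4 i, Finset.sum_add_distrib, Finset.sum_ite_eq' Finset.univ j]
      simp
    linarith
  intro i
  refine Fin.cases ?_ (fun j => hs j) i
  have h5 : ∑ i : Fin k, C i.succ * 1 = 0 := Finset.sum_eq_zero fun i _ => by rw [hs i, zero_mul]
  linarith

/-- an affine function as a function of the variable `y 0` -/
theorem upd {k : ℕ} (hk : 1 ≤ k) (C : Fin (k + 1) → ℝ) (y : ℕ → ℝ) (t : ℝ) :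
    C 0 + ∑ i : Fin k, C i.succ * (Function.update y 0 t) (i : ℕ) =
      (C 0 + ∑ i : Fin k, C i.succ * y (i : ℕ)) + C 1 * (t - y 0) := by
  obtain ⟨m, rfl⟩ : ∃ m, k = m + 1 := ⟨k - 1, by omega⟩
  rw [Fin.sum_univ_succ, Fin.sum_univ_succ]
  have h1 : ∀ i : Fin m, (Function.update y 0 t) ((i.succ : Fin (m + 1)) : ℕ) = y ((i.succ : Fin (m + 1)) : ℕ) := by
    intro i
    rw [Function.update_of_ne]
    simp
  simp only [h1]
  have h2 : (Function.update y 0 t) (((0 : Fin (m + 1))) : ℕ) = t := by simp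
  rw [h2]
  have h3 : (Fin.succ (0 : Fin (m + 1))) = 1 := rfl
  rw [h3]
  simp only [Fin.val_zero]
  ring

/-- the basic comparison -/
theorem compare {k : ℕ} (hk : 1 ≤ k) {N D g : Fin (k + 1) → ℝ} (hg1 : g 1 = 0)
    (hD : ∀ y : ℕ → ℝ, (∀ i, 0 < y i) → 0 < D 0 + ∑ i : Fin k, D i.succ * y (i : ℕ))
    (hG : ∀ y : ℕ → ℝ, (∀ i, 0 < y i) → 0 < g 0 + ∑ i : Fin k, g i.succ * y (i : ℕ))
    (h : ∀ y : ℕ → ℝ, (∀ i, 0 < y i) → (N 0 + ∑ i : Fin k, N i.succ * y (i : ℕ)) /
      (D 0 + ∑ i : Fin k, D i.succ * y (i : ℕ)) = (g 0 + ∑ i : Fin k, g i.succ * y (i : ℕ)) / y 0) :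
    0 < D 1 ∧ (∀ i, D i = if (i : ℕ) = 1 then D 1 else 0) ∧ ∀ i, N i = D 1 * g i := by
  have key : ∀ y : ℕ → ℝ, (∀ i, 0 < y i) →
      D 0 + ∑ i : Fin k, D i.succ * y (i : ℕ) = D 1 * y 0 ∧
      N 0 + ∑ i : Fin k, N i.succ * y (i : ℕ) = D 1 * (g 0 + ∑ i : Fin k, g i.succ * y (i : ℕ)) := by
    intro y hy
    have h1 : ∀ t : ℝ, 0 < t → ((N 0 + ∑ i : Fin k, N i.succ * y (i : ℕ)) + N 1 * (t - y 0)) * t =
        (g 0 + ∑ i : Fin k, g i.succ * y (i : ℕ)) * ((D 0 + ∑ i : Fin k, D i.succ * y (i : ℕ)) + D 1 * (t - y 0)) := by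
      intro t ht
      have hy' : ∀ i, 0 < (Function.update y 0 t) i := by
        intro i
        by_cases hi : i = 0
        · subst hi
          rw [Function.update_self]
          exact ht
        · rw [Function.update_of_ne hi]
          exact hy i
      have h2 := h _ hy'
      have h3 := hD _ hy'
      rw [div_eq_div_iff h3.ne' (hy' 0).ne', upd hk, upd hk, upd hk, hg1, zero_mul, add_zero, Function.update_self] at h2
      exact h2
    have e1 := h1 1 one_pos
    have e2 := h1 2 two_pos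
    have e3 := h1 3 three_pos
    have hGy := hG y hy
    generalize N 0 + ∑ i : Fin k, N i.succ * y (i : ℕ) = n at e1 e2 e3 ⊢
    generalize D 0 + ∑ i : Fin k, D i.succ * y (i : ℕ) = d at e1 e2 e3 ⊢
    generalize g 0 + ∑ i : Fin k, g i.succ * y (i : ℕ) = G at e1 e2 e3 hGy ⊢
    have h4 : N 1 = 0 := by linarith
    rw [h4] at e1 e2 e3
    have h5 : G * (d - D 1 * y 0) = 0 := by linarith
    have h6 : d - D 1 * y 0 = 0 := by
      rcases mul_eq_zero.1 h5 with h | h
      · exact absurd h hGy.ne'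
      · exact h
    have h7 : d = D 1 * y 0 := by linarith
    refine ⟨h7, ?_⟩
    rw [h7] at e1
    linarith
  have hpos : 0 < D 1 := by
    have h1 := (key (fun _ => 1) fun _ => one_pos).1
    have h2 := hD (fun _ => 1) fun _ => one_pos
    rw [h1] at h2
    linarith
  obtain ⟨m, rfl⟩ : ∃ m, k = m + 1 := ⟨k - 1, by omega⟩
  have hone : ((1 : Fin (m + 1 + 1)) : ℕ) = 1 := by
    simp
  refine ⟨hpos, fun i => ?_, fun i => ?_⟩
  · have h1 : ∀ i, (fun j : Fin (m + 1 + 1) => D j - if (j : ℕ) = 1 then D 1 else 0) i = 0 := by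
      refine coeff_zero fun y hy => ?_
      have h2 := (key y hy).1
      have h3 : ∑ i : Fin (m + 1), (if ((i.succ : Fin (m + 1 + 1)) : ℕ) = 1 then D 1 else 0) * y (i : ℕ) = D 1 * y 0 := by
        rw [Finset.sum_eq_single (0 : Fin (m + 1))]
        · simp
        · intro b _ hb
          have : ((b.succ : Fin (m + 1 + 1)) : ℕ) ≠ 1 := by
            rw [Fin.val_succ]
            intro hh
            apply hb
            apply Fin.ext
            simpa using hh
          rw [if_neg this, zero_mul]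
        · intro hh
          exact absurd (Finset.mem_univ _) hh
      simp only [sub_mul, Finset.sum_sub_distrib, h3]
      have h4 : (((0 : Fin (m + 1 + 1)) : ℕ) = 1) = False := by simp
      simp only [h4, if_false]
      linarith
    have h5 := h1 i
    simp only at h5
    linarith
  · have h1 : ∀ i, (fun j : Fin (m + 1 + 1) => N j - D 1 * g j) i = 0 := by
      refine coeff_zero fun y hy => ?_
      have h2 := (key y hy).2
      simp only [sub_mul, Finset.sum_sub_distrib, mul_assoc, ← Finset.mul_sum]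
      rw [mul_add] at h2
      linarith
    have h5 := h1 i
    simp only at h5
    linarith

/-- the affine function with the coefficients `g` -/
theorem lin_nat (k : ℕ) (g y : ℕ → ℝ) :
    ∑ i : Fin k, g ((i.succ : Fin (k + 1)) : ℕ) * y (i : ℕ) = ∑ j ∈ Finset.range k, g (j + 1) * y j := by
  rw [← Fin.sum_univ_eq_sum_range (fun j => g (j + 1) * y j) k]
  rfl

theorem lin_zero (k : ℕ) (c : ℝ) (y : ℕ → ℝ) :
    (fun i : Fin (k + 1) => if (i : ℕ) = 0 then c else 0) 0 +
      ∑ i : Fin k, (fun i : Fin (k + 1) => if (i : ℕ) = 0 then c else 0) i.succ * y (i : ℕ) = c := by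
  simp

theorem lin_one {k : ℕ} (hk : 1 ≤ k) (c : ℝ) (y : ℕ → ℝ) :
    (fun i : Fin (k + 1) => if (i : ℕ) = 1 then c else 0) 0 +
      ∑ i : Fin k, (fun i : Fin (k + 1) => if (i : ℕ) = 1 then c else 0) i.succ * y (i : ℕ) = c * y 0 := by
  have h := lin_nat k (fun n => if n = 1 then c else 0) y
  simp only at h ⊢
  rw [h, Finset.sum_eq_single_of_mem 0 (Finset.mem_range.2 hk)]
  · simp
  · intro b _ hb
    rw [if_neg (by omega), zero_mul]

theorem lin_mono {k ℓ : ℕ} (hk : ℓ < k) (c d : ℝ) (y : ℕ → ℝ) :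
    (fun i : Fin (k + 1) => if (i : ℕ) = 0 then c else if (i : ℕ) = ℓ + 1 then d else 0) 0 +
      ∑ i : Fin k, (fun i : Fin (k + 1) => if (i : ℕ) = 0 then c else if (i : ℕ) = ℓ + 1 then d else 0) i.succ *
        y (i : ℕ) = c + d * y ℓ := by
  have h := lin_nat k (fun n => if n = 0 then c else if n = ℓ + 1 then d else 0) y
  simp only at h ⊢
  rw [h, Finset.sum_eq_single_of_mem ℓ (Finset.mem_range.2 hk)]
  · simp
  · intro b _ hb
    rw [if_neg (by omega), if_neg (by omega), zero_mul]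

theorem lin_two {k ℓ : ℕ} (hℓ : 1 ≤ ℓ) (hk : 2 * ℓ < k) (c d : ℝ) (y : ℕ → ℝ) :
    (fun i : Fin (k + 1) => if (i : ℕ) = 0 then c else if (i : ℕ) = ℓ + 1 ∨ (i : ℕ) = 2 * ℓ + 1 then d else 0) 0 +
      ∑ i : Fin k, (fun i : Fin (k + 1) => if (i : ℕ) = 0 then c else
        if (i : ℕ) = ℓ + 1 ∨ (i : ℕ) = 2 * ℓ + 1 then d else 0) i.succ * y (i : ℕ) =
      c + d * y ℓ + d * y (2 * ℓ) := by
  have h := lin_nat k (fun n => if n = 0 then c else if n = ℓ + 1 ∨ n = 2 * ℓ + 1 then d else 0) y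
  simp only at h ⊢
  have hsub : ({ℓ, 2 * ℓ} : Finset ℕ) ⊆ Finset.range k := by
    intro j hj
    rw [Finset.mem_insert, Finset.mem_singleton] at hj
    rw [Finset.mem_range]
    omega
  rw [h, ← Finset.sum_subset hsub, Finset.sum_pair (by omega)]
  · have h1 : (if ℓ + 1 = 0 then c else if ℓ + 1 = ℓ + 1 ∨ ℓ + 1 = 2 * ℓ + 1 then d else 0) = d := by
      rw [if_neg (by omega), if_pos (Or.inl rfl)]
    have h2 : (if 2 * ℓ + 1 = 0 then c else if 2 * ℓ + 1 = ℓ + 1 ∨ 2 * ℓ + 1 = 2 * ℓ + 1 then d else 0) = d := by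
      rw [if_neg (by omega), if_pos (Or.inr rfl)]
    rw [h1, h2]
    simp
    ring
  · intro b _ hb
    rw [Finset.mem_insert, Finset.mem_singleton, not_or] at hb
    rw [if_neg (by omega), if_neg (by omega), zero_mul]

end Pool.Agent.Helper69.PerA
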