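import Pool.Agent.Helper26.SolvWidth

/-!
# Commutator width and the mod-2 coinvariants of the derived sections
-/

open scoped commutatorElement

namespace Pool.Agent.Helper69.TR

open Pool.Agent.Helper26.CW

universe u

/-- Elements of an abelian group `A` modulo `2 A`: if `A / 2A` is spanned by `r` elements and `s`
generates `A`, then every element is a sum of at most `r` elements of `s` plus an element of
`2 A`. -/
lemma exists_list_of_rank {A : Type u} [AddCommGroup A] (s : Set A)
    (hs : AddSubgroup.closure s = ⊤) (r : ℕ) (c : Fin r → A)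
    (hc : ∀ a : A, a ∈ AddSubgroup.closure (Set.range c ∪ {x | ∃ b, x = 2 • b})) (w : A) :
    ∃ l : List A, l.length ≤ r ∧ (∀ x ∈ l, x ∈ s) ∧ ∃ b, w = l.sum + 2 • b := by
  classical
  set T : AddSubgroup A := (zsmulAddGroupHom (2 : ℤ)).range with hT
  have hT2 : ∀ x : A, 2 • x ∈ T := fun x => ⟨x, by simp [two_zsmul, two_nsmul]⟩
  let _ : Module (ZMod 2) (A ⧸ T) := QuotientAddGroup.zmodModule (n := 2) hT2
  have hfg : Submodule.span (ZMod 2) (Set.range fun i => (QuotientAddGroup.mk (c i) : A ⧸ T)) =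
      ⊤ := by
    rw [eq_top_iff]
    rintro x -
    obtain ⟨a, rfl⟩ := QuotientAddGroup.mk_surjective x
    have ha := hc a
    induction ha using AddSubgroup.closure_induction with
    | mem x hx =>
      rcases hx with ⟨i, rfl⟩ | ⟨b, rfl⟩
      · exact Submodule.subset_span ⟨i, rfl⟩
      · have : (QuotientAddGroup.mk (2 • b) : A ⧸ T) = 0 :=
          (QuotientAddGroup.eq_zero_iff _).2 (hT2 b)
        rw [this]
        exact zero_mem _
    | zero => exact zero_mem _
    | add x y _ _ hx hy => exact add_mem hx hy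
    | neg x _ hx => exact neg_mem hx
  have hspan : Submodule.span (ZMod 2) ((fun a => (QuotientAddGroup.mk a : A ⧸ T)) '' s) = ⊤ := by
    rw [eq_top_iff]
    rintro x -
    obtain ⟨a, rfl⟩ := QuotientAddGroup.mk_surjective x
    have ha : a ∈ AddSubgroup.closure s := hs ▸ AddSubgroup.mem_top a
    induction ha using AddSubgroup.closure_induction with
    | mem x hx => exact Submodule.subset_span ⟨x, hx, rfl⟩
    | zero => exact zero_mem _
    | add x y _ _ hx hy => exact add_mem hx hy
    | neg x _ hx => exact neg_mem hx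
  have hrank : Module.finrank (ZMod 2) (A ⧸ T) ≤ r := by
    have := finrank_range_le_card (R := ZMod 2) (fun i => (QuotientAddGroup.mk (c i) : A ⧸ T))
    rw [Set.finrank, hfg, finrank_top, Fintype.card_fin] at this
    exact this
  have hfin : Module.Finite (ZMod 2) (A ⧸ T) :=
    ⟨by rw [← hfg]; exact Submodule.fg_span (Set.finite_range _)⟩
  have hw : (QuotientAddGroup.mk w : A ⧸ T) ∈
      Submodule.span (ZMod 2) ((fun a => (QuotientAddGroup.mk a : A ⧸ T)) '' s) := by
    rw [hspan]; trivial
  rw [Submodule.mem_span_set_iff_exists_finsupp_le_finrank] at hw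
  obtain ⟨f, hf1, hf2, hf3⟩ := hw
  rw [hspan, finrank_top] at hf1
  have hlift : ∀ y : A ⧸ T, ∃ a : A, (y ∈ f.support → a ∈ s) ∧ (QuotientAddGroup.mk a : A ⧸ T) =
      y := by
    intro y
    by_cases hy : y ∈ f.support
    · obtain ⟨a, ha, rfl⟩ := hf2 hy
      exact ⟨a, fun _ => ha, rfl⟩
    · obtain ⟨a, rfl⟩ := QuotientAddGroup.mk_surjective y
      exact ⟨a, fun h => absurd h hy, rfl⟩
  choose g hg1 hg2 using hlift
  refine ⟨f.support.toList.map g, ?_, ?_, ?_⟩
  · simpa using hf1.trans hrank
  · intro x hx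
    rw [List.mem_map] at hx
    obtain ⟨y, hy, rfl⟩ := hx
    exact hg1 y (by simpa using hy)
  · have h1 : (QuotientAddGroup.mk (f.support.toList.map g).sum : A ⧸ T) =
        QuotientAddGroup.mk w := by
      rw [← hf3, Finsupp.sum]
      have h2 : ∀ y ∈ f.support, f y • y = y := by
        intro y hy
        have h3 : f y ≠ 0 := by simpa using hy
        have h4 : ∀ a : ZMod 2, a ≠ 0 → a = 1 := by decide
        rw [h4 _ h3, one_smul]
      rw [Finset.sum_congr rfl h2]
      have h5 : ∀ l : List (A ⧸ T), (QuotientAddGroup.mk (l.map g).sum : A ⧸ T) = l.sum := by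
        intro l
        induction l with
        | nil => simp
        | cons a l ih => simp [hg2, ih]
      rw [h5]
      simp
    rw [QuotientAddGroup.eq] at h1
    obtain ⟨b, hb⟩ := h1
    refine ⟨b, ?_⟩
    have h6 : 2 • b = -(f.support.toList.map g).sum + w := by
      rw [← hb]; simp [two_zsmul, two_nsmul]
    rw [h6]; abel

/-- Multiplicative form, for a central subgroup. -/
lemma exists_list_of_central {H : Type u} [Group H] (Z : Subgroup H)
    (hZ : Z ≤ Subgroup.center H) (s : Set H) (hs : Subgroup.closure s = Z) (r : ℕ)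
    (c : Fin r → H) (hc : ∀ i, c i ∈ Z)
    (hZc : Z ≤ Subgroup.closure (Set.range c ∪ {x | ∃ b ∈ Z, x = b ^ 2})) {w : H} (hw : w ∈ Z) :
    ∃ l : List H, l.length ≤ r ∧ (∀ x ∈ l, x ∈ s) ∧ ∃ b ∈ Z, w = l.prod * b ^ 2 := by
  let _ : CommGroup Z :=
    { (inferInstance : Group Z) with
      mul_comm := fun a b => Subtype.ext ((Subgroup.mem_center_iff.1 (hZ b.2)) a.1) }
  have hsZ : s ⊆ Z := hs ▸ Subgroup.subset_closure
  have key := exists_list_of_rank (A := Additive Z)
    (Additive.toMul ⁻¹' (Subtype.val ⁻¹' s)) ?_ r (fun i => Additive.ofMul ⟨c i, hc i⟩) ?_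
    (Additive.ofMul ⟨w, hw⟩)
  · obtain ⟨l, hl1, hl2, b, hb⟩ := key
    refine ⟨l.map (fun x => ((Additive.toMul x : Z) : H)), by simpa using hl1, ?_,
      ((Additive.toMul b : Z) : H), (Additive.toMul b).2, ?_⟩
    · intro x hx
      rw [List.mem_map] at hx
      obtain ⟨y, hy, rfl⟩ := hx
      exact hl2 y hy
    · have h1 := congrArg (fun x => ((Additive.toMul x : Z) : H)) hb
      have h2 : ∀ l : List (Additive Z), ((Additive.toMul l.sum : Z) : H) =
          (l.map (fun x => ((Additive.toMul x : Z) : H))).prod := by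
        intro l
        induction l with
        | nil => rfl
        | cons a l ih =>
          rw [List.sum_cons, List.map_cons, List.prod_cons, ← ih]
          rfl
      rw [← h2]
      exact h1
  · rw [eq_top_iff]
    rintro x -
    have hx : ((Additive.toMul x : Z) : H) ∈ Subgroup.closure s := hs ▸ (Additive.toMul x).2
    have : ∀ y : H, ∀ hy : y ∈ Subgroup.closure s, ∀ hyZ : y ∈ Z,
        (Additive.ofMul (⟨y, hyZ⟩ : Z)) ∈
          AddSubgroup.closure (Additive.toMul ⁻¹' (Subtype.val ⁻¹' s) : Set (Additive Z)) := by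
      intro y hy
      induction hy using Subgroup.closure_induction with
      | mem y hy => exact fun hyZ => AddSubgroup.subset_closure hy
      | one => exact fun hyZ => zero_mem _
      | mul y z hy hz ihy ihz =>
        intro hyZ
        rw [hs] at hy hz
        exact add_mem (ihy hy) (ihz hz)
      | inv y hy ihy =>
        intro hyZ
        rw [hs] at hy
        exact neg_mem (ihy hy)
    exact this _ hx (Additive.toMul x).2
  · intro x
    have hx : ((Additive.toMul x : Z) : H) ∈
      Subgroup.closure (Set.range c ∪ {x | ∃ b ∈ Z, x = b ^ 2}) := hZc (Additive.toMul x).2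
    have hcl : Subgroup.closure (Set.range c ∪ {x | ∃ b ∈ Z, x = b ^ 2}) ≤ Z := by
      rw [Subgroup.closure_le]
      rintro y (⟨i, rfl⟩ | ⟨b, hb, rfl⟩)
      · exact hc i
      · exact Z.pow_mem hb 2
    have : ∀ y : H, ∀ hy : y ∈ Subgroup.closure (Set.range c ∪ {x | ∃ b ∈ Z, x = b ^ 2}),
        ∀ hyZ : y ∈ Z, (Additive.ofMul (⟨y, hyZ⟩ : Z)) ∈
          AddSubgroup.closure (Set.range (fun i => Additive.ofMul (⟨c i, hc i⟩ : Z)) ∪
            {x | ∃ b, x = 2 • b}) := by
      intro y hy
      induction hy using Subgroup.closure_induction with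
      | mem y hy =>
        intro hyZ
        refine AddSubgroup.subset_closure ?_
        rcases hy with ⟨i, rfl⟩ | ⟨b, hb, rfl⟩
        · exact Or.inl ⟨i, rfl⟩
        · exact Or.inr ⟨Additive.ofMul ⟨b, hb⟩, rfl⟩
      | one => exact fun hyZ => zero_mem _
      | mul y z hy hz ihy ihz =>
        intro hyZ
        exact add_mem (ihy (hcl hy)) (ihz (hcl hz))
      | inv y hy ihy =>
        intro hyZ
        exact neg_mem (ihy (hcl hy))
    exact this _ hx (Additive.toMul x).2

/-- The generating hypothesis: the `m`-th derived group is generated by `r` elements, its squares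
and its commutators with `G`. -/
def RankHyp (G : Type u) [Group G] (r m : ℕ) : Prop :=
  ∃ c : Fin r → G, (∀ i, c i ∈ derivedSeries G m) ∧
    derivedSeries G m ≤
      Subgroup.closure (Set.range c ∪ {y | ∃ a ∈ derivedSeries G m, y = a ^ 2}) ⊔
        ⁅derivedSeries G m, (⊤ : Subgroup G)⁆

lemma RankHyp.map {G H : Type u} [Group G] [Group H] (f : G →* H) (hf : Function.Surjective f)
    {r m : ℕ} (h : RankHyp G r m) : RankHyp H r m := by
  obtain ⟨c, hc, h⟩ := h
  have hm : (derivedSeries G m).map f = derivedSeries H m := map_derivedSeries_eq hf m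
  refine ⟨fun i => f (c i), fun i => hm ▸ ⟨c i, hc i, rfl⟩, ?_⟩
  rw [← hm]
  refine (Subgroup.map_mono h).trans ?_
  rw [Subgroup.map_sup, MonoidHom.map_closure, Subgroup.map_commutator,
    Subgroup.map_top_of_surjective f hf]
  refine sup_le_sup (Subgroup.closure_mono ?_) le_rfl
  rintro y ⟨x, (⟨i, rfl⟩ | ⟨a, ha, rfl⟩), rfl⟩
  · exact Or.inl ⟨i, rfl⟩
  · exact Or.inr ⟨f a, ⟨a, ha, rfl⟩, map_pow f a 2⟩

lemma isProdComm_list {G : Type u} [Group G] (R : Subgroup G) (l : List G)
    (hl : ∀ x ∈ l, x ∈ {g | ∃ g₁ ∈ R, ∃ g₂ ∈ R, ⁅g₁, g₂⁆ = g}) : IsProdComm l.length l.prod := by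
  induction l with
  | nil => exact isProdComm_zero
  | cons x l ih =>
    obtain ⟨g₁, -, g₂, -, hg⟩ := hl x (List.mem_cons_self ..)
    rw [List.prod_cons, List.length_cons, add_comm, ← hg]
    exact (isProdComm_comm g₁ g₂).mul (ih fun y hy => hl y (List.mem_cons_of_mem _ hy))

/-- One step: elements of the last nontrivial derived group. -/
theorem width_last_rank {G : Type u} [Group G] (ys : List G)
    (hgen : Subgroup.closure {y | y ∈ ys} = ⊤) (m r : ℕ)
    (h : derivedSeries G (m + 2) = ⊥) (hr : RankHyp G r (m + 1)) {a : G}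
    (ha : a ∈ derivedSeries G (m + 1)) :
    IsProdComm (r + 2 * ys.length + ys.length) a := by
  refine lift_center (derivedSeries G (m + 1)) (comm_of_commutator_eq_bot h) ys hgen ?_
  set K := ⁅derivedSeries G (m + 1), (⊤ : Subgroup G)⁆ with hK
  obtain ⟨c, hc, hcl⟩ := hr.map (QuotientGroup.mk' K) (QuotientGroup.mk'_surjective K)
  have hmap : derivedSeries (G ⧸ K) (m + 1) = (derivedSeries G (m + 1)).map (QuotientGroup.mk' K) :=
    derivedSeries_quotient K (m + 1)
  have hcen : derivedSeries (G ⧸ K) (m + 1) ≤ Subgroup.center (G ⧸ K) := by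
    rw [hmap]
    rintro _ ⟨x, hx, rfl⟩
    exact mk_central _ hx
  have htop : ⁅derivedSeries (G ⧸ K) (m + 1), (⊤ : Subgroup (G ⧸ K))⁆ = ⊥ := by
    rw [eq_bot_iff, Subgroup.commutator_le]
    intro x hx g _
    rw [Subgroup.mem_bot, commutatorElement_eq_one_iff_mul_comm]
    exact ((Subgroup.mem_center_iff.1 (hcen hx)) g).symm
  rw [htop, sup_bot_eq] at hcl
  have ha' : (QuotientGroup.mk a : G ⧸ K) ∈ derivedSeries (G ⧸ K) (m + 1) := by
    rw [hmap]; exact ⟨a, ha, rfl⟩
  have hs : Subgroup.closure {g | ∃ g₁ ∈ derivedSeries (G ⧸ K) m,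
      ∃ g₂ ∈ derivedSeries (G ⧸ K) m, ⁅g₁, g₂⁆ = g} = derivedSeries (G ⧸ K) (m + 1) := by
    exact (Subgroup.commutator_def _ _).symm
  obtain ⟨l, hl1, hl2, b, hb, hab⟩ := exists_list_of_central _ hcen _ hs r c hc hcl ha'
  rw [hab]
  have h1 : IsProdComm r l.prod := by
    have h2 := isProdComm_list (derivedSeries (G ⧸ K) m) l hl2
    exact h2.mono hl1
  refine h1.mul ?_
  rw [hmap] at hb
  obtain ⟨b, hb, rfl⟩ := hb
  have := isProdComm_sq (derivedSeries (G ⧸ K) m)
    (quot_central m) (ys.map (QuotientGroup.mk' _))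
    (closure_map_top _ (QuotientGroup.mk'_surjective _) ys hgen) (quot_mem m hb)
  rw [List.length_map] at this
  exact this

/-- The main induction. -/
theorem width_rank (k d : ℕ) (r : ℕ → ℕ) (G : Type u) [Group G] (ys : List G)
    (hk : ys.length = k) (hgen : Subgroup.closure {y | y ∈ ys} = ⊤)
    (hd : derivedSeries G (d + 3) = ⊥)
    (hr : ∀ m, 3 ≤ m → m < d + 3 → RankHyp G (r m) m) (g : G) (hg : g ∈ derivedSeries G 1) :
    IsProdComm (k ^ 2 + 3 * k + ∑ m ∈ Finset.Ico 3 (d + 3), (3 * k + r m)) g := by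
  induction d generalizing G with
  | zero =>
    subst hk
    refine (width_three ys hgen hd hg).mono (le_of_eq ?_)
    simp only [zero_add, Finset.Ico_self, Finset.sum_empty]
    ring
  | succ d ih =>
    subst hk
    have h1 : (QuotientGroup.mk g : G ⧸ derivedSeries G (d + 3)) ∈
        derivedSeries (G ⧸ derivedSeries G (d + 3)) 1 := by
      rw [derivedSeries_quotient]; exact ⟨g, hg, rfl⟩
    have h2 : derivedSeries (G ⧸ derivedSeries G (d + 3)) (d + 3) = ⊥ := by
      rw [derivedSeries_quotient, QuotientGroup.map_mk'_self]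
    have h4 := ih (G ⧸ derivedSeries G (d + 3)) (ys.map (QuotientGroup.mk' _)) (by simp)
      (closure_map_top _ (QuotientGroup.mk'_surjective _) ys hgen) h2
      (fun m hm hm' => (hr m hm (by omega)).map _ (QuotientGroup.mk'_surjective _)) _ h1
    obtain ⟨c, a, hc, ha, hca⟩ := exists_of_quotient _ h4
    rw [hca]
    refine (hc.mul (width_last_rank ys hgen (d + 2) (r (d + 3)) hd
      (hr (d + 3) (by omega) (by omega)) ha)).mono (le_of_eq ?_)
    have hsum := Finset.sum_Ico_succ_top (show 3 ≤ d + 3 by omega)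
      (fun m => 3 * ys.length + r m)
    rw [show d + 1 + 3 = d + 3 + 1 by ring]
    rw [hsum]
    ring

/-- If every element of the `m`-th derived group has odd order, the hypothesis holds with rank
`0`. -/
lemma RankHyp.of_odd {G : Type u} [Group G] (m : ℕ)
    (h : ∀ a ∈ derivedSeries G m, ∃ n : ℕ, Odd n ∧ a ^ n = 1) : RankHyp G 0 m := by
  refine ⟨fun i => i.elim0, fun i => i.elim0, ?_⟩
  intro a ha
  obtain ⟨n, ⟨j, rfl⟩, hn⟩ := h a ha
  refine Subgroup.mem_sup_left (Subgroup.subset_closure (Or.inr ⟨a ^ (j + 1), ?_, ?_⟩))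
  · exact (derivedSeries G m).pow_mem ha _
  · rw [← pow_mul, show (j + 1) * 2 = (2 * j + 1) + 1 by ring, pow_succ, hn, one_mul]

end Pool.Agent.Helper69.TR
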